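import Mathlib
import Pool.Agent.Q112.LeonardBip

/-!
# A zero-diagonal tridiagonal basis of a bipartite Leonard pair which is an eigenbasis of neither
`q`-commutator

`A = diag(-21, -4, 4, 21)`, `A'` is the matrix with rows `(0, 84, 0, 0), (1, 0, 17, 0),
(0, 17, 0, 1), (0, 0, 84, 0)`, and `q = 2`.
-/

namespace Pool.Agent.Results.MP_54d771_al.MixedBasis

open Pool.Agent.Q112.Leo

/-- Over every field `K` of characteristic zero containing a square root `ι` of `-1` there are a
Leonard pair `A, A'` on `K⁴` (`d = 3`) with all `a_i = 0` and all `a*_i = 0`, a scalar `q` such that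
`q² + q⁻² + 1` is the common value of the ratios of eigenvalue differences of `A` and of `A'`, and
an admissible basis of `K⁴` which consists neither of eigenvectors of `q A A' - q⁻¹ A' A` nor of
eigenvectors of `q⁻¹ A A' - q A' A`. -/
theorem result (K : Type) [Field K] [CharZero K] (ι : K) (h : ι * ι = -1) :
    ∃ (A A' : Module.End K (Fin 4 → K)) (q : K),
      IsBipartitePair 3 A A' ∧ q ≠ 0 ∧ HasBase 3 q A A' ∧ HasBase 3 q A' A ∧
        ∃ b : Module.Basis (Fin 4) K (Fin 4 → K), IsAdmissible (d := 3) A A' b ∧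
          ¬ IsEigenbasis (d := 3) (q • (A * A') - q⁻¹ • (A' * A)) b ∧
          ¬ IsEigenbasis (d := 3) (q⁻¹ • (A * A') - q • (A' * A)) b :=
  bmain ι h

end Pool.Agent.Results.MP_54d771_al.MixedBasis
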